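import Mathlib
import Pool.Agent.N511.LL.Stm
import Pool.Agent.R460.SQ.Fin

set_option autoImplicit false

/-! The local factors of `n = p + m²`. -/

namespace Pool.Agent.K9h54.LW

open Finset Filter Topology
open Pool.Agent.N511.LL (T PP Q loc PR)
open Pool.Agent.R460.SQ (RepS Sz GoodS QS)
open Pool.Agent.H373R2.T7 (nuB pz Vz)

lemma nu_odd (n : ℤ) {p : ℕ} (hp : p.Prime) (hp2 : p ≠ 2) : (nuB (QS 1 n) p : ℤ) = 1 + jacobiSym n p := by
  classical
  haveI : Fact p.Prime := ⟨hp⟩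
  haveI : NeZero p := ⟨hp.ne_zero⟩
  have h1 := legendreSym.card_sqrts p hp2 n
  rw [jacobiSym.legendreSym.to_jacobiSym] at h1
  rw [add_comm, ← h1]
  unfold nuB
  norm_cast
  refine Finset.card_bij (fun (r : ℕ) _ => (r : ZMod p)) ?_ ?_ ?_
  · intro r hr
    rw [mem_filter] at hr
    rw [Set.mem_toFinset, Set.mem_setOf_eq]
    have h2 : (p : ℤ) ∣ n - 1 * (r : ℤ) ^ 2 := hr.2
    have h3 := (ZMod.intCast_zmod_eq_zero_iff_dvd (n - 1 * (r : ℤ) ^ 2) p).2 h2
    push_cast at h3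
    rw [one_mul, sub_eq_zero] at h3
    exact h3.symm
  · intro a ha b hb hab
    rw [mem_filter, mem_range] at ha hb
    have h2 := (ZMod.natCast_eq_natCast_iff' a b p).1 hab
    rwa [Nat.mod_eq_of_lt ha.1, Nat.mod_eq_of_lt hb.1] at h2
  · intro x hx
    rw [Set.mem_toFinset, Set.mem_setOf_eq] at hx
    refine ⟨x.val, ?_, ZMod.natCast_zmod_val x⟩
    rw [mem_filter, mem_range]
    refine ⟨ZMod.val_lt x, ?_⟩
    show (p : ℤ) ∣ n - 1 * ((x.val : ℕ) : ℤ) ^ 2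
    rw [← ZMod.intCast_zmod_eq_zero_iff_dvd]
    push_cast
    rw [ZMod.natCast_zmod_val, one_mul, hx, sub_self]

lemma nu_two (n : ℤ) : nuB (QS 1 n) 2 = 1 := by
  classical
  unfold nuB
  rw [Finset.card_eq_one]
  have key : ∀ r : ℕ, r < 2 → (QS 1 n 2 r ↔ (r : ℤ) % 2 = n % 2) := by
    intro r hr
    unfold QS
    rw [one_mul]
    interval_cases r
    · simp only [Nat.cast_zero]; omega
    · simp only [Nat.cast_one]; omega
  refine ⟨(n % 2).toNat, ?_⟩
  ext r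
  rw [mem_filter, mem_range, mem_singleton]
  constructor
  · rintro ⟨h1, h2⟩
    have := (key r h1).1 h2
    omega
  · intro h
    have h1 : r < 2 := by omega
    refine ⟨h1, (key r h1).2 ?_⟩
    omega

/-- the truncated singular series -/
lemma Sz_eq (n : ℤ) (z : ℕ) (hz : 2 ≤ z) : Sz 1 n z = T n z := by
  rw [Pool.Agent.R460.SQ.Sz_prod]
  have hpz : pz z = insert 2 (PP z) := by
    ext p
    rw [Pool.Agent.H373R2.T7.mem_pz, mem_insert]
    unfold PP
    rw [mem_filter, mem_Icc]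
    constructor
    · rintro ⟨h1, h2⟩
      rcases h2.eq_two_or_odd' with h | h
      · exact Or.inl h
      · exact Or.inr ⟨⟨by have := h2.two_le; rcases h with ⟨c, hc⟩; omega, h1⟩, h2⟩
    · rintro (rfl | ⟨⟨h1, h2⟩, h3⟩)
      · exact ⟨hz, Nat.prime_two⟩
      · exact ⟨h2, h3⟩
  have h2 : 2 ∉ PP z := by
    unfold PP
    rw [mem_filter, mem_Icc]
    omega
  rw [hpz, prod_insert h2, nu_two]
  have : (1 - ((1 : ℕ) : ℝ) / ((2 : ℕ) : ℝ)) / (1 - 1 / ((2 : ℕ) : ℝ)) = 1 := by norm_num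
  rw [this, one_mul]
  unfold T
  refine prod_congr rfl fun p hp => ?_
  unfold PP at hp
  rw [mem_filter, mem_Icc] at hp
  have h3 : ((nuB (QS 1 n) p : ℤ) : ℝ) = ((1 + jacobiSym n p : ℤ) : ℝ) := by
    rw [nu_odd n hp.2 (by omega)]
  have h4 : (nuB (QS 1 n) p : ℝ) = 1 + (jacobiSym n p : ℝ) := by
    have e : ((nuB (QS 1 n) p : ℤ) : ℝ) = (nuB (QS 1 n) p : ℝ) := by norm_cast
    rw [← e, h3]
    push_cast
    ring
  rw [h4]
  unfold loc
  have hp1 : (3 : ℝ) ≤ p := by exact_mod_cast hp.1.1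
  have hp2 : (p : ℝ) - 1 ≠ 0 := by linarith
  have hp3 : (p : ℝ) ≠ 0 := by linarith
  field_simp
  ring

end Pool.Agent.K9h54.LW
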