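import Mathlib
import Pool.Agent.K9h54.LW.A
import Pool.Agent.N511.LL.D0

set_option autoImplicit false

/-! The number of the solutions of `n = p + m²` with `m` in an interval, for one good `n`. -/

namespace Pool.Agent.K9h54.LW

open Finset Filter Topology
open Pool.Agent.N511.LL (T PP Q loc PR)
open Pool.Agent.R460.SQ (RepS Sz GoodS QS)

/-- number of the `u < m ≤ v` with `n - m²` prime -/
def cnt (n u v : ℕ) : ℕ := #((Ioc u v).filter (fun m => (n - m ^ 2).Prime))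

lemma rep_diff {n u v : ℕ} (huv : u ≤ v) :
    RepS n v - RepS n u = ∑ m ∈ Ioc u v, if (n - m ^ 2).Prime then Real.log ((n - m ^ 2 : ℕ) : ℝ) else 0 := by
  unfold RepS
  have h : Icc 1 v = Icc 1 u ∪ Ioc u v := by
    ext m
    rw [mem_union, mem_Icc, mem_Icc, mem_Ioc]
    omega
  have hd : Disjoint (Icc 1 u) (Ioc u v) := by
    rw [Finset.disjoint_left]
    intro m h1 h2
    rw [mem_Icc] at h1
    rw [mem_Ioc] at h2
    omega
  rw [h, sum_union hd]
  ring

/-- few `m` with `n - m²` small -/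
lemma few_small {n : ℕ} {L : ℝ} (hL : 1 ≤ L) (u v : ℕ) (hv : v ^ 2 < n) :
    (#((Ioc u v).filter (fun m : ℕ => ((n - m ^ 2 : ℕ) : ℝ) * L ^ 2 < n)) : ℝ) ≤ √(n : ℝ) / L ^ 2 + 1 := by
  have hL0 : 0 < L := by linarith
  have hs0 : 0 ≤ √(n : ℝ) := Real.sqrt_nonneg _
  have hss : √(n : ℝ) * √(n : ℝ) = n := Real.mul_self_sqrt (Nat.cast_nonneg n)
  set a : ℝ := √(n : ℝ) * (1 - 1 / L ^ 2) with ha
  have hL2 : 1 / L ^ 2 ≤ 1 := by
    rw [div_le_one (by positivity)]
    exact one_le_pow₀ hL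
  have ha0 : 0 ≤ a := mul_nonneg hs0 (by linarith)
  have haN : a ≤ √(n : ℝ) := by
    rw [ha]
    have : 0 ≤ 1 / L ^ 2 := by positivity
    nlinarith
  have hsub : (Ioc u v).filter (fun m : ℕ => ((n - m ^ 2 : ℕ) : ℝ) * L ^ 2 < n) ⊆ Ioc ⌊a⌋₊ ⌊√(n : ℝ)⌋₊ := by
    intro m hm
    rw [mem_filter, mem_Ioc] at hm
    obtain ⟨⟨h1, h2⟩, h3⟩ := hm
    have hm2 : m ^ 2 < n := lt_of_le_of_lt (Nat.pow_le_pow_left h2 2) hv
    have hm2r : (m : ℝ) ^ 2 < n := by exact_mod_cast hm2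
    rw [Nat.cast_sub hm2.le] at h3
    push_cast at h3
    rw [mem_Ioc]
    constructor
    · rw [Nat.floor_lt ha0]
      by_contra hcon
      rw [not_lt] at hcon
      have h4 : (m : ℝ) ^ 2 ≤ a ^ 2 := pow_le_pow_left₀ (Nat.cast_nonneg m) hcon 2
      have h5 : a ^ 2 = n * (1 - 1 / L ^ 2) ^ 2 := by
        rw [ha, mul_pow, sq (√(n : ℝ)), hss]
      have h6 : (1 - 1 / L ^ 2) ^ 2 ≤ 1 - 1 / L ^ 2 := by
        have : 0 ≤ 1 / L ^ 2 := by positivity
        nlinarith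
      have h7 : (m : ℝ) ^ 2 ≤ n * (1 - 1 / L ^ 2) := by
        rw [h5] at h4
        exact h4.trans (mul_le_mul_of_nonneg_left h6 (Nat.cast_nonneg n))
      have h8 : ((n : ℝ) - (m : ℝ) ^ 2) * L ^ 2 ≥ n := by
        have h9 : (n : ℝ) * (1 / L ^ 2) ≤ n - (m : ℝ) ^ 2 := by linarith
        have h10 := mul_le_mul_of_nonneg_right h9 (show 0 ≤ L ^ 2 by positivity)
        have e : (n : ℝ) * (1 / L ^ 2) * L ^ 2 = n := by field_simp
        linarith
      linarith
    · apply Nat.le_floor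
      exact Real.le_sqrt_of_sq_le hm2r.le
  have h1 : (#((Ioc u v).filter (fun m : ℕ => ((n - m ^ 2 : ℕ) : ℝ) * L ^ 2 < n)) : ℝ) ≤
      ((⌊√(n : ℝ)⌋₊ - ⌊a⌋₊ : ℕ) : ℝ) := by
    have := card_le_card hsub
    rw [Nat.card_Ioc] at this
    exact_mod_cast this
  refine h1.trans ?_
  rw [Nat.cast_sub (Nat.floor_mono haN)]
  have h2 : (⌊√(n : ℝ)⌋₊ : ℝ) ≤ √(n : ℝ) := Nat.floor_le hs0
  have h3 : a < ⌊a⌋₊ + 1 := Nat.lt_floor_add_one a
  have h4 : a = √(n : ℝ) - √(n : ℝ) / L ^ 2 := by rw [ha]; ring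
  linarith

lemma key {κ η c : ℝ} {y z N n : ℕ} (hη0 : 0 < η) (hη1 : η ≤ 1) (hκ : 0 < κ) (hc : 0 < c)
    (hcT : c ≤ T n y) (hST : |T n z - T n y| ≤ η / 4 * T n y) (hz : 2 ≤ z) (hG : GoodS 2 N z n) (hnN : n ≤ N)
    (hL : 2 ≤ Real.log N) (h1 : 0 < Real.log n - 2 * Real.log (Real.log N))
    (h1' : 2 * Real.log (Real.log N) ≤ η / 8 * (Real.log n - 2 * Real.log (Real.log N)))
    (h2 : 4 * √(N : ℝ) / (Real.log N) ^ 2 + (√(N : ℝ) / Real.log N + Real.log N) ≤ η / 2 * c * (κ * √(n : ℝ))) :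
    ∀ u v : ℕ, u < v → v ^ 2 < n → κ * √(n : ℝ) ≤ (v : ℝ) - u →
      |(cnt n u v : ℝ) * Real.log n - T n y * ((v : ℝ) - u)| ≤ η * T n y * ((v : ℝ) - u) := by
  intro u v huv hvn hlen
  set L := Real.log N with hLd
  have hL0 : 0 < L := by linarith
  have hn1 : 1 ≤ n := by omega
  have hn0 : (0 : ℝ) < n := by exact_mod_cast hn1
  have hnNr : (n : ℝ) ≤ N := by exact_mod_cast hnN
  have hN0 : (0 : ℝ) < N := by linarith
  have hlogn0 : 0 ≤ Real.log n := Real.log_nonneg (by exact_mod_cast hn1)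
  have hlognN : Real.log n ≤ L := Real.log_le_log hn0 hnNr
  have hsn : √(n : ℝ) ≤ √(N : ℝ) := Real.sqrt_le_sqrt hnNr
  have hsn0 : 0 < √(n : ℝ) := Real.sqrt_pos.2 hn0
  have hsN0 : 0 < √(N : ℝ) := Real.sqrt_pos.2 hN0
  have hT0 : 0 < T n y := lt_of_lt_of_le hc hcT
  set ℓ : ℝ := (v : ℝ) - u with hℓ
  have hℓ0 : 0 < ℓ := lt_of_lt_of_le (by positivity) hlen
  set R : ℝ := RepS n v - RepS n u with hR
  have hRs := rep_diff (n := n) huv.le
  have hun : u ^ 2 < n := lt_of_le_of_lt (Nat.pow_le_pow_left huv.le 2) hvn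
  have hSz : Sz 1 n z = T n z := Sz_eq n z hz
  have hRS : |R - T n z * ℓ| ≤ 2 * √(N : ℝ) / L ^ 2 := by
    have a1 := hG.2 v hvn
    have a2 := hG.2 u hun
    rw [hSz, ← hLd] at a1 a2
    have e : R - T n z * ℓ = (RepS n v - T n z * v) - (RepS n u - T n z * u) := by rw [hR, hℓ]; ring
    rw [e]
    refine (abs_sub _ _).trans ?_
    have e2 : 2 * √(N : ℝ) / L ^ 2 = √(N : ℝ) / L ^ 2 + √(N : ℝ) / L ^ 2 := by ring
    rw [e2]
    exact add_le_add a1 a2
  -- lower bound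
  have hlow : R ≤ cnt n u v * Real.log n := by
    rw [hR, hRs]
    unfold cnt
    rw [← nsmul_eq_mul, ← sum_const, sum_filter]
    refine sum_le_sum fun m hm => ?_
    split_ifs with hp
    · refine Real.log_le_log (by exact_mod_cast hp.pos) ?_
      exact_mod_cast Nat.sub_le _ _
    · exact le_rfl
  -- upper bound
  have hRnn : 0 ≤ R := by
    rw [hR, hRs]
    refine sum_nonneg fun m hm => ?_
    split_ifs with hp
    · exact Real.log_nonneg (by exact_mod_cast hp.one_lt.le)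
    · exact le_rfl
  have hup : (cnt n u v : ℝ) * Real.log n ≤ R * (1 + η / 8) + (√(N : ℝ) / L + L) := by
    have hfew := few_small (n := n) (L := L) (by linarith) u v hvn
    set A := (Ioc u v).filter (fun m : ℕ => (n - m ^ 2).Prime ∧ ¬ ((n - m ^ 2 : ℕ) : ℝ) * L ^ 2 < n) with hA
    set B := (Ioc u v).filter (fun m : ℕ => ((n - m ^ 2 : ℕ) : ℝ) * L ^ 2 < n) with hB
    have hcard : (cnt n u v : ℝ) ≤ #A + #B := by
      have : cnt n u v ≤ #A + #B := by
        unfold cnt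
        refine (card_le_card ?_).trans (card_union_le A B)
        intro m hm
        rw [mem_filter] at hm
        rw [mem_union, hA, hB, mem_filter, mem_filter]
        by_cases h : ((n - m ^ 2 : ℕ) : ℝ) * L ^ 2 < n
        · exact Or.inr ⟨hm.1, h⟩
        · exact Or.inl ⟨hm.1, hm.2, h⟩
      exact_mod_cast this
    have hAR : (#A : ℝ) * (Real.log n - 2 * Real.log L) ≤ R := by
      rw [hR, hRs, ← nsmul_eq_mul, ← sum_const]
      have hAsub : A ⊆ Ioc u v := filter_subset _ _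
      refine le_trans ?_ (sum_le_sum_of_subset_of_nonneg hAsub fun m _ _ => ?_)
      · refine sum_le_sum fun m hm => ?_
        rw [hA, mem_filter] at hm
        obtain ⟨-, hp, hbig⟩ := hm
        rw [if_pos hp]
        rw [not_lt] at hbig
        have hp0 : (0 : ℝ) < ((n - m ^ 2 : ℕ) : ℝ) := by exact_mod_cast hp.pos
        have := Real.log_le_log hn0 hbig
        rw [Real.log_mul hp0.ne' (by positivity), Real.log_pow] at this
        push_cast at this
        linarith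
      · split_ifs with hp
        · exact Real.log_nonneg (by exact_mod_cast hp.one_lt.le)
        · exact le_rfl
    have hA2 : (#A : ℝ) * Real.log n ≤ R * (1 + η / 8) := by
      have e1 : Real.log n ≤ (1 + η / 8) * (Real.log n - 2 * Real.log L) := by linarith
      calc (#A : ℝ) * Real.log n ≤ #A * ((1 + η / 8) * (Real.log n - 2 * Real.log L)) :=
            mul_le_mul_of_nonneg_left e1 (Nat.cast_nonneg _)
        _ = (1 + η / 8) * (#A * (Real.log n - 2 * Real.log L)) := by ring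
        _ ≤ (1 + η / 8) * R := mul_le_mul_of_nonneg_left hAR (by positivity)
        _ = R * (1 + η / 8) := by ring
    have hB2 : (#B : ℝ) * Real.log n ≤ √(N : ℝ) / L + L := by
      calc (#B : ℝ) * Real.log n ≤ (√(N : ℝ) / L ^ 2 + 1) * L := by
            refine mul_le_mul (hfew.trans ?_) hlognN hlogn0 (by positivity)
            have : √(n : ℝ) / L ^ 2 ≤ √(N : ℝ) / L ^ 2 := div_le_div_of_nonneg_right hsn (by positivity)
            linarith
        _ = √(N : ℝ) / L + L := by field_simp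
    calc (cnt n u v : ℝ) * Real.log n ≤ (#A + #B) * Real.log n := mul_le_mul_of_nonneg_right hcard hlogn0
      _ = #A * Real.log n + #B * Real.log n := by ring
      _ ≤ _ := add_le_add hA2 hB2
  -- put together
  have hbudget : η / 2 * c * (κ * √(n : ℝ)) ≤ η / 2 * (T n y * ℓ) := by
    have a1 : c * (κ * √(n : ℝ)) ≤ T n y * ℓ := mul_le_mul hcT hlen (by positivity) hT0.le
    have := mul_le_mul_of_nonneg_left a1 (show 0 ≤ η / 2 by positivity)
    linarith
  have hTℓ : 0 < T n y * ℓ := mul_pos hT0 hℓ0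
  obtain ⟨s1, s2⟩ := abs_le.1 hST
  obtain ⟨r1, r2⟩ := abs_le.1 hRS
  have hSℓ1 : T n z * ℓ ≤ (1 + η / 4) * (T n y * ℓ) := by nlinarith
  have hSℓ2 : (1 - η / 4) * (T n y * ℓ) ≤ T n z * ℓ := by nlinarith
  have h3 : 0 < √(N : ℝ) / L + L := by positivity
  have h4 : 4 * √(N : ℝ) / L ^ 2 = 2 * (2 * √(N : ℝ) / L ^ 2) := by ring
  have h5 : 0 < 2 * √(N : ℝ) / L ^ 2 := by positivity
  rw [h4] at h2
  set W := 2 * √(N : ℝ) / L ^ 2 with hW
  rw [abs_le]
  constructor
  · have : T n z * ℓ - W ≤ cnt n u v * Real.log n := by linarith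
    nlinarith
  · have e1 : R * (1 + η / 8) ≤ ((1 + η / 4) * (T n y * ℓ) + W) * (1 + η / 8) :=
      mul_le_mul_of_nonneg_right (by linarith) (by positivity)
    have e2 : ((1 + η / 4) * (T n y * ℓ) + W) * (1 + η / 8) ≤ (1 + η / 2) * (T n y * ℓ) + 2 * W := by
      have e3 : (1 + η / 4) * (1 + η / 8) ≤ 1 + η / 2 := by nlinarith
      have e4 := mul_le_mul_of_nonneg_right e3 hTℓ.le
      have e5 : W * (1 + η / 8) ≤ 2 * W := by nlinarith
      nlinarith
    linarith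

end Pool.Agent.K9h54.LW
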