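import Mathlib
import Pool.Agent.K9h54.LW.B

set_option autoImplicit false

/-! Eventual inequalities. -/

namespace Pool.Agent.K9h54.LW

open Finset Filter Topology

/-- long intervals of admissible `m` -/
def Win (κ : ℝ) (n u v : ℕ) : Prop := u < v ∧ v ^ 2 < n ∧ κ * √(n : ℝ) ≤ (v : ℝ) - u

lemma win_ex {κ : ℝ} {n : ℕ} (hκ : 0 < κ) (h : 1 ≤ (1 - κ) * √(n : ℝ)) : ∃ u v : ℕ, Win κ n u v := by
  have hs0 : 0 ≤ √(n : ℝ) := Real.sqrt_nonneg _
  have hn1 : 1 ≤ n := by
    by_contra h0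
    have : n = 0 := by omega
    rw [this] at h
    simp at h
    linarith
  obtain ⟨v, hv⟩ : ∃ v, v = Nat.sqrt (n - 1) := ⟨_, rfl⟩
  have h1 : v ^ 2 < n := by
    have : v ^ 2 ≤ n - 1 := by rw [hv]; exact Nat.sqrt_le' _
    omega
  have h2 : n ≤ (v + 1) ^ 2 := by
    have : n - 1 < (v + 1) ^ 2 := by rw [hv]; exact Nat.lt_succ_sqrt' _
    omega
  have h3 : √(n : ℝ) ≤ v + 1 := by
    rw [Real.sqrt_le_left (by positivity)]
    exact_mod_cast h2
  have h4 : κ * √(n : ℝ) ≤ v := by nlinarith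
  refine ⟨0, v, ?_, h1, by push_cast; linarith⟩
  have hn0 : (0 : ℝ) < n := by exact_mod_cast hn1
  have : (0 : ℝ) < v := lt_of_lt_of_le (mul_pos hκ (Real.sqrt_pos.2 hn0)) h4
  exact_mod_cast this

lemma ev_key (κ η c η2 : ℝ) (hκ : 0 < κ) (hκ1 : κ < 1) (hη : 0 < η) (hη1 : η ≤ 1) (hc : 0 < c) (hη2 : 0 < η2) :
    ∃ N1 : ℕ, ∀ N : ℕ, N1 ≤ N → 2 ≤ Real.log N ∧ ∀ n : ℕ, η2 * N ≤ n → n ≤ N →
      0 < Real.log n - 2 * Real.log (Real.log N) ∧
      2 * Real.log (Real.log N) ≤ η / 8 * (Real.log n - 2 * Real.log (Real.log N)) ∧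
      4 * √(N : ℝ) / (Real.log N) ^ 2 + (√(N : ℝ) / Real.log N + Real.log N) ≤ η / 2 * c * (κ * √(n : ℝ)) ∧
      ∃ u v : ℕ, Win κ n u v := by
  obtain ⟨K, hK⟩ : ∃ K, K = η / 2 * c * κ * √η2 := ⟨_, rfl⟩
  have hs2 : 0 < √η2 := Real.sqrt_pos.2 hη2
  have hK0 : 0 < K := by rw [hK]; positivity
  have hlog : Tendsto (fun N : ℕ => Real.log (N : ℝ)) atTop atTop :=
    Real.tendsto_log_atTop.comp tendsto_natCast_atTop_atTop
  have hsq : Tendsto (fun N : ℕ => √(N : ℝ)) atTop atTop :=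
    Real.tendsto_sqrt_atTop.comp tendsto_natCast_atTop_atTop
  have e1 := hlog.eventually ((Real.isLittleO_log_id_atTop).def (show 0 < η / 64 by positivity))
  have e2 := hlog.eventually_ge_atTop (4 + 4 / K + 8 * |Real.log η2|)
  have e3 : ∀ᶠ N : ℕ in atTop, ‖Real.log (N : ℝ)‖ ≤ K / 2 * ‖(N : ℝ) ^ (1 / 2 : ℝ)‖ :=
    tendsto_natCast_atTop_atTop.eventually
      ((isLittleO_log_rpow_atTop (show (0 : ℝ) < 1 / 2 by norm_num)).def (show 0 < K / 2 by positivity))
  have e4 := hsq.eventually_ge_atTop (1 / ((1 - κ) * √η2))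
  obtain ⟨N1, hN1⟩ := eventually_atTop.1 (e1.and (e2.and (e3.and (e4.and (eventually_ge_atTop 1)))))
  refine ⟨N1, fun N hN => ?_⟩
  obtain ⟨a1, a2, a3, a4, a5⟩ := hN1 N hN
  obtain ⟨L, hL⟩ : ∃ L, L = Real.log (N : ℝ) := ⟨_, rfl⟩
  rw [← hL] at a1 a2 a3 ⊢
  have hKi : 0 < 4 / K := by positivity
  have habs := abs_nonneg (Real.log η2)
  have hL4 : 4 ≤ L := by linarith
  have hL0 : 0 < L := by linarith
  have hll0 : 0 ≤ Real.log L := Real.log_nonneg (by linarith)
  rw [Real.norm_of_nonneg hll0, id, Real.norm_of_nonneg hL0.le] at a1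
  have hN0 : (0 : ℝ) < N := by exact_mod_cast a5
  rw [Real.norm_of_nonneg hL0.le, Real.norm_of_nonneg (by positivity), ← Real.sqrt_eq_rpow] at a3
  have hsN : 0 < √(N : ℝ) := Real.sqrt_pos.2 hN0
  refine ⟨by linarith, fun n hn1 hn2 => ?_⟩
  have hn0 : (0 : ℝ) < n := lt_of_lt_of_le (by positivity) hn1
  have hlogn : L + Real.log η2 ≤ Real.log n := by
    have := Real.log_le_log (by positivity) hn1
    rw [Real.log_mul hη2.ne' hN0.ne', ← hL] at this
    linarith
  have hneg := neg_abs_le (Real.log η2)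
  have hηL : η / 64 * L ≤ L / 64 := by nlinarith
  have h5 : L / 2 ≤ Real.log n - 2 * Real.log L := by linarith
  have hsn : √η2 * √(N : ℝ) ≤ √(n : ℝ) := by
    rw [← Real.sqrt_mul hη2.le]
    exact Real.sqrt_le_sqrt hn1
  refine ⟨by linarith, ?_, ?_, ?_⟩
  · have h6 : η / 8 * (L / 2) ≤ η / 8 * (Real.log n - 2 * Real.log L) :=
      mul_le_mul_of_nonneg_left h5 (by positivity)
    nlinarith
  · have h6 : K * √(N : ℝ) ≤ η / 2 * c * (κ * √(n : ℝ)) := by
      rw [hK]
      have := mul_le_mul_of_nonneg_left hsn (show 0 ≤ η / 2 * c * κ by positivity)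
      calc η / 2 * c * κ * √η2 * √(N : ℝ) = η / 2 * c * κ * (√η2 * √(N : ℝ)) := by ring
        _ ≤ η / 2 * c * κ * √(n : ℝ) := this
        _ = _ := by ring
    refine le_trans ?_ h6
    have h7 : 4 * √(N : ℝ) / L ^ 2 ≤ √(N : ℝ) / L := by
      rw [div_le_div_iff₀ (by positivity) hL0]
      nlinarith [mul_pos hsN hL0]
    have h8 : √(N : ℝ) / L ≤ K / 4 * √(N : ℝ) := by
      rw [div_le_iff₀ hL0]
      have : 1 ≤ K / 4 * L := by
        have h9 : 4 / K ≤ L := by linarith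
        rw [div_le_iff₀ hK0] at h9
        linarith
      nlinarith
    linarith
  · apply win_ex hκ
    have h1κ : 0 < 1 - κ := by linarith
    rw [div_le_iff₀ (by positivity)] at a4
    calc (1 : ℝ) ≤ √(N : ℝ) * ((1 - κ) * √η2) := a4
      _ = (1 - κ) * (√η2 * √(N : ℝ)) := by ring
      _ ≤ (1 - κ) * √(n : ℝ) := mul_le_mul_of_nonneg_left hsn h1κ.le

/-! ### progressions -/

/-- the first positive element of the class of `b` modulo `q` -/
def fst (q b : ℕ) : ℕ := (b + q - 1) % q + 1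

lemma fst_le {q b : ℕ} (hq : 1 ≤ q) : fst q b ≤ q := by
  unfold fst
  have := Nat.mod_lt (b + q - 1) hq
  omega

lemma fst_mod {q b : ℕ} (hq : 1 ≤ q) : fst q b ≡ b [MOD q] := by
  unfold fst
  have h1 : (b + q - 1) % q + 1 ≡ (b + q - 1) + 1 [MOD q] := (Nat.mod_modEq _ _).add_right 1
  refine h1.trans ?_
  have : b + q - 1 + 1 = b + q := by omega
  rw [this]
  exact Nat.add_modEq_right

/-- the number of the elements up to `N` -/
def len (q b N : ℕ) : ℕ := (N - fst q b) / q + 1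

lemma prog_card {q b N : ℕ} (hq : 1 ≤ q) (hqN : q ≤ N) (P : ℕ → Prop) [DecidablePred P] :
    #((Icc 1 N).filter (fun n => n ≡ b [MOD q] ∧ P n)) = #((range (len q b N)).filter (fun i => P (fst q b + q * i))) := by
  have hf1 : 1 ≤ fst q b := by unfold fst; omega
  have hf2 := fst_le (b := b) hq
  have hf3 := fst_mod (b := b) hq
  refine card_nbij' (fun n => (n - fst q b) / q) (fun i => fst q b + q * i) ?_ ?_ ?_ ?_
  · intro n hn
    simp only [coe_filter, mem_Icc, Set.mem_ofPred_eq] at hn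
    obtain ⟨⟨h1, h2⟩, h3, h4⟩ := hn
    have h5 : n ≡ fst q b [MOD q] := h3.trans hf3.symm
    have h6 : fst q b ≤ n := by
      by_contra hcon
      have h7 := (Nat.modEq_iff_dvd' (by omega : n ≤ fst q b)).1 h5
      have h8 := Nat.le_of_dvd (by omega) h7
      omega
    obtain ⟨c, hc⟩ := (Nat.modEq_iff_dvd' h6).1 h5.symm
    have h9 : (n - fst q b) / q = c := by rw [hc]; exact Nat.mul_div_cancel_left c hq
    simp only [coe_filter, mem_range, Set.mem_ofPred_eq]
    rw [h9]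
    constructor
    · unfold len
      have : c ≤ (N - fst q b) / q := by
        rw [Nat.le_div_iff_mul_le hq, mul_comm]
        omega
      omega
    · have : fst q b + q * c = n := by omega
      rw [this]
      exact h4
  · intro i hi
    simp only [coe_filter, mem_range, Set.mem_ofPred_eq] at hi
    obtain ⟨h1, h2⟩ := hi
    simp only [coe_filter, mem_Icc, Set.mem_ofPred_eq]
    refine ⟨⟨by omega, ?_⟩, ?_, h2⟩
    · unfold len at h1
      have : i ≤ (N - fst q b) / q := by omega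
      rw [Nat.le_div_iff_mul_le hq, mul_comm] at this
      omega
    · refine Nat.ModEq.trans ?_ hf3
      have : fst q b + q * i ≡ fst q b + 0 [MOD q] := Nat.ModEq.add_left _ ((Nat.modEq_zero_iff_dvd).2 ⟨i, rfl⟩)
      rwa [add_zero] at this
  · intro n hn
    simp only [coe_filter, mem_Icc, Set.mem_ofPred_eq] at hn
    obtain ⟨⟨h1, h2⟩, h3, h4⟩ := hn
    have h5 : n ≡ fst q b [MOD q] := h3.trans hf3.symm
    have h6 : fst q b ≤ n := by
      by_contra hcon
      have h7 := (Nat.modEq_iff_dvd' (by omega : n ≤ fst q b)).1 h5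
      have h8 := Nat.le_of_dvd (by omega) h7
      omega
    obtain ⟨c, hc⟩ := (Nat.modEq_iff_dvd' h6).1 h5.symm
    have h9 : (n - fst q b) / q = c := by rw [hc]; exact Nat.mul_div_cancel_left c hq
    show fst q b + q * ((n - fst q b) / q) = n
    rw [h9]
    omega
  · intro i hi
    show (fst q b + q * i - fst q b) / q = i
    rw [Nat.add_sub_cancel_left]
    exact Nat.mul_div_cancel_left i hq

lemma len_bd {q b N : ℕ} (hq : 1 ≤ q) (hqN : q ≤ N) :
    (N : ℝ) / q - 1 ≤ len q b N ∧ (len q b N : ℝ) ≤ N / q + 1 := by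
  have hf1 : 1 ≤ fst q b := by unfold fst; omega
  have hf2 := fst_le (b := b) hq
  have hq0 : (0 : ℝ) < q := by exact_mod_cast hq
  constructor
  · rw [sub_le_iff_le_add, div_le_iff₀ hq0]
    have h1 : N ≤ (len q b N + 1) * q := by
      unfold len
      have := Nat.lt_div_mul_add (a := N - fst q b) hq
      have e : ((N - fst q b) / q + 1 + 1) * q = (N - fst q b) / q * q + q + q := by ring
      rw [e]
      omega
    have : (N : ℝ) ≤ ((len q b N + 1) * q : ℕ) := by exact_mod_cast h1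
    push_cast at this
    exact this
  · unfold len
    push_cast
    have h1 : (((N - fst q b) / q : ℕ) : ℝ) ≤ ((N - fst q b : ℕ) : ℝ) / q := Nat.cast_div_le
    have h2 : ((N - fst q b : ℕ) : ℝ) / q ≤ N / q := by
      apply div_le_div_of_nonneg_right _ hq0.le
      exact_mod_cast Nat.sub_le _ _
    linarith

end Pool.Agent.K9h54.LW
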