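import Mathlib
import Pool.Agent.K9h54.LW.C1
import Pool.Agent.N511.LL.B

set_option autoImplicit false

/-! Almost all members of a residue class have the expected number of solutions in all long intervals. -/

namespace Pool.Agent.K9h54.LW

open Finset Filter Topology
open Pool.Agent.N511.LL (T PP Q loc PR)
open Pool.Agent.R460.SQ (RepS Sz GoodS QS)

lemma loc_abs (d : ℤ) {p : ℕ} (hp : 3 ≤ p) : |loc d p - 1| ≤ 2 * (1 / (p : ℝ)) := by
  unfold loc
  have h2 : (3 : ℝ) ≤ p := by exact_mod_cast hp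
  have h3 : (1 - (jacobiSym d p : ℝ) / ((p : ℝ) - 1) - 1) = -((jacobiSym d p : ℝ) / ((p : ℝ) - 1)) := by ring
  rw [h3, abs_neg, abs_div, abs_of_pos (show (0 : ℝ) < p - 1 by linarith)]
  have h1 : |(jacobiSym d p : ℝ)| ≤ 1 := by
    rcases jacobiSym.trichotomy d p with h | h | h <;> rw [h] <;> norm_num
  have h4 : (2 : ℝ) * (1 / p) = 2 / p := by ring
  rw [h4, div_le_div_iff₀ (by linarith) (by linarith)]
  nlinarith

lemma prod_q {q : ℕ} (hq : 1 ≤ q) (d : ℤ) {y z : ℕ} (hy : 2 ≤ y) {δ : ℝ} (hδ : δ ≤ 1 / 2)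
    (h : ∑ p ∈ q.primeFactors.filter (fun p => 2 < p), (1 : ℝ) / p ≤ δ) :
    |∏ p ∈ (PR 1 y z).filter (fun p => p ∣ q), loc d p - 1| ≤ 4 * δ := by
  set F := (PR 1 y z).filter (fun p => p ∣ q) with hF
  have hFm : ∀ p ∈ F, p.Prime ∧ 2 < p ∧ p ∣ q := by
    intro p hp
    rw [hF, mem_filter] at hp
    unfold PR at hp
    rw [mem_filter, mem_Ioc] at hp
    exact ⟨hp.1.2.1, by omega, hp.2⟩
  have h1 : ∑ p ∈ F, |loc d p - 1| ≤ 2 * δ := by
    calc ∑ p ∈ F, |loc d p - 1| ≤ ∑ p ∈ F, 2 * (1 / (p : ℝ)) :=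
          sum_le_sum fun p hp => loc_abs d (hFm p hp).2.1
      _ = 2 * ∑ p ∈ F, 1 / (p : ℝ) := by rw [mul_sum]
      _ ≤ 2 * ∑ p ∈ q.primeFactors.filter (fun p => 2 < p), (1 : ℝ) / p := by
          refine mul_le_mul_of_nonneg_left ?_ (by norm_num)
          refine sum_le_sum_of_subset_of_nonneg ?_ fun p _ _ => by positivity
          intro p hp
          obtain ⟨a1, a2, a3⟩ := hFm p hp
          rw [mem_filter, Nat.mem_primeFactors]
          exact ⟨⟨a1, a3, by omega⟩, a2⟩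
      _ ≤ 2 * δ := by linarith
  have h2 := Finset.norm_prod_one_add_sub_one_le F (fun p => loc d p - 1)
  have h3 : ∏ p ∈ F, (1 + (loc d p - 1)) = ∏ p ∈ F, loc d p := prod_congr rfl fun p _ => by ring
  rw [h3] at h2
  simp only [Real.norm_eq_abs] at h2
  refine h2.trans ?_
  have h0 : 0 ≤ ∑ p ∈ F, |loc d p - 1| := sum_nonneg fun _ _ => abs_nonneg _
  set S := ∑ p ∈ F, |loc d p - 1| with hS
  have h4 : Real.exp S - 1 ≤ 2 * S := by
    have h5 : |S| ≤ 1 := by rw [abs_of_nonneg h0]; linarith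
    have h6 := Real.abs_exp_sub_one_le h5
    rw [abs_of_nonneg h0] at h6
    exact (le_abs_self _).trans h6
  linarith

lemma prod_split {q : ℕ} (hq : 1 ≤ q) (d : ℤ) (y z : ℕ) :
    ∏ p ∈ PR 1 y z, loc d p = (∏ p ∈ PR q y z, loc d p) * ∏ p ∈ (PR 1 y z).filter (fun p => p ∣ q), loc d p := by
  have h := Finset.prod_filter_mul_prod_filter_not (PR 1 y z) (fun p => p ∣ q) (fun p => loc d p)
  rw [← h, mul_comm]
  congr 1
  refine prod_congr ?_ fun _ _ => rfl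
  ext p
  unfold PR
  rw [mem_filter, mem_filter, mem_filter]
  constructor
  · rintro ⟨⟨h1, h2, h3⟩, h4⟩
    exact ⟨h1, h2, h4⟩
  · rintro ⟨h1, h2, h3⟩
    exact ⟨⟨h1, h2, fun h4 => h2.one_lt.ne' (Nat.dvd_one.1 h4)⟩, h3⟩

/-- the conclusion for one integer -/
def Close (κ η : ℝ) (y n : ℕ) : Prop :=
  (∃ u v : ℕ, Win κ n u v) ∧ ∀ u v : ℕ, Win κ n u v →
    |(cnt n u v : ℝ) * Real.log n - T n y * ((v : ℝ) - u)| ≤ η * T n y * ((v : ℝ) - u)

lemma class_count {q b K : ℕ} (hq : 1 ≤ q) :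
    (#((Icc 1 K).filter (fun n => n ≡ b [MOD q])) : ℝ) ≤ (K : ℝ) / q + 2 := by
  classical
  have hq0 : (0 : ℝ) < q := by exact_mod_cast hq
  have h1 : #((Icc 1 K).filter (fun n => n ≡ b [MOD q])) ≤ #((Icc 1 (max K q)).filter (fun n => n ≡ b [MOD q] ∧ True)) := by
    refine card_le_card fun n hn => ?_
    rw [mem_filter, mem_Icc] at hn ⊢
    exact ⟨⟨hn.1.1, hn.1.2.trans (le_max_left _ _)⟩, hn.2, trivial⟩
  rw [prog_card hq (le_max_right _ _)] at h1
  have h2 := (len_bd (b := b) hq (le_max_right K q)).2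
  have h3 : #((range (len q b (max K q))).filter (fun _ => True)) ≤ len q b (max K q) := by
    refine (card_filter_le _ _).trans ?_
    rw [card_range]
  have h4 : (#((Icc 1 K).filter (fun n => n ≡ b [MOD q])) : ℝ) ≤ len q b (max K q) := by
    exact_mod_cast h1.trans h3
  have h5 : ((max K q : ℕ) : ℝ) / q ≤ K / q + 1 := by
    rcases le_total K q with h | h
    · rw [max_eq_right h, div_self hq0.ne']
      have : 0 ≤ (K : ℝ) / q := by positivity
      linarith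
    · rw [max_eq_left h]
      linarith
  linarith

open Classical in
theorem core (κ η : ℝ) (hκ : 0 < κ) (hκ1 : κ < 1) (hη : 0 < η) (hη1 : η ≤ 1) :
    ∃ y0 : ℕ, ∃ δ : ℝ, 0 < δ ∧ ∀ y : ℕ, y0 ≤ y → ∀ (μ : ℝ) (A s : ℕ), 0 < μ → ∃ N₀ : ℕ, ∀ N : ℕ, N₀ ≤ N →
      ∀ q : ℕ, 1 ≤ q → (q : ℝ) ≤ (N : ℝ) ^ (1 / 2 - μ) → (q.divisors.card : ℝ) ≤ Real.log N ^ A →
      ∑ p ∈ q.primeFactors.filter (fun p => 2 < p), (1 : ℝ) / p ≤ δ →
      ∀ b : ℕ, (Nat.gcd (b + s) q : ℝ) ≤ Real.log N ^ A →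
        (#((Icc 1 N).filter (fun n => n ≡ b [MOD q] ∧ ¬ Close κ η y (n + s))) : ℝ) ≤ η * (N / q) := by
  obtain ⟨y0, hy02, hy0⟩ := Pool.Agent.N511.LL.b2 (η / 16) (by positivity)
  refine ⟨y0, η / 64, by positivity, fun y hy μ A s hμ => ?_⟩
  have hy2 : 2 ≤ y := hy02.trans hy
  set c : ℝ := (1 / 2 : ℝ) ^ #(PP y) with hcd
  have hc0 : 0 < c := by rw [hcd]; positivity
  obtain ⟨B, hB⟩ := Pool.Agent.R460.SQ.fin_sq μ hμ 1 2 A
  obtain ⟨N1, hN1⟩ := hB (B + 2)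
  obtain ⟨N2, hN2⟩ := ev_key κ η c (η / 16) hκ hκ1 hη hη1 hc0 (by positivity)
  obtain ⟨N3, hN3⟩ := eventually_atTop.1 (Pool.Agent.Y614.GJ.Core.ev_log (3 * (B + 2)) (s := 1 / 4) (by norm_num)
    (max 3 (max y (64 / η))))
  have hlarge : ∀ᶠ N : ℕ in atTop, (64 / η + 4 : ℝ) ≤ (N : ℝ) ^ (1 / 4 : ℝ) :=
    ((tendsto_rpow_atTop (by norm_num)).comp tendsto_natCast_atTop_atTop).eventually_ge_atTop _
  obtain ⟨N4, hN4⟩ := eventually_atTop.1 hlarge
  refine ⟨N1 + N2 + N3 + N4 + s + 2, fun N hN q hq hqN hτ hδ b hb => ?_⟩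
  obtain ⟨N', hN'⟩ : ∃ N', N' = N + s := ⟨_, rfl⟩
  obtain ⟨hL2, hkey⟩ := hN2 N' (by omega)
  obtain ⟨hLb, hLp⟩ := hN3 N' (by omega)
  have hN4' := hN4 N (by omega)
  have hN0 : (0 : ℝ) < N := by exact_mod_cast (by omega : 0 < N)
  have hN1r : (1 : ℝ) ≤ N := by exact_mod_cast (by omega : 1 ≤ N)
  have hNN' : (N : ℝ) ≤ N' := by exact_mod_cast (by omega : N ≤ N')
  have hN'2 : (N' : ℝ) ≤ 2 * N := by exact_mod_cast (by omega : N' ≤ 2 * N)
  have hN'0 : (0 : ℝ) < N' := by linarith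
  have hq0 : (0 : ℝ) < q := by exact_mod_cast hq
  set L := Real.log N' with hL
  have hLN : Real.log N ≤ L := Real.log_le_log hN0 hNN'
  have hLN0 : 0 ≤ Real.log N := Real.log_nonneg hN1r
  have hLy : (y : ℝ) ≤ L := le_trans (le_trans (le_max_left _ _) (le_max_right _ _)) hLb
  have hLη : 64 / η ≤ L := le_trans (le_trans (le_max_right _ _) (le_max_right _ _)) hLb
  have hL3 : 3 ≤ L := le_trans (le_max_left _ _) hLb
  have hL0 : 0 < L := by linarith
  have hL1 : 1 ≤ L := by linarith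
  -- the cut
  obtain ⟨z, hz⟩ : ∃ z : ℕ, z = ⌈L ^ B⌉₊ + y := ⟨_, rfl⟩
  have hLB : 1 ≤ L ^ B := one_le_pow₀ hL1
  have hz1 : L ^ B ≤ z := by
    rw [hz]; push_cast
    have := Nat.le_ceil (L ^ B)
    have h0 : (0 : ℝ) ≤ y := Nat.cast_nonneg y
    linarith
  have hzy : y ≤ z := by omega
  have hz2 : (z : ℝ) ≤ L ^ (B + 2) := by
    have h1 : (z : ℝ) ≤ L ^ B + 1 + L := by
      rw [hz]; push_cast
      have := (Nat.ceil_lt_add_one (show 0 ≤ L ^ B by positivity)).le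
      linarith
    have h2 : L ^ (B + 2) = L ^ B * (L * L) := by ring
    rw [h2]
    have h3 : 1 * (L * L - 1) ≤ L ^ B * (L * L - 1) := mul_le_mul_of_nonneg_right hLB (by nlinarith)
    nlinarith
  -- sizes
  have hr4 : (N : ℝ) ^ (1 / 2 : ℝ) = (N : ℝ) ^ (1 / 4 : ℝ) * (N : ℝ) ^ (1 / 4 : ℝ) := by
    rw [← Real.rpow_add hN0]; norm_num
  obtain ⟨w, hw⟩ : ∃ w, w = (N : ℝ) ^ (1 / 4 : ℝ) := ⟨_, rfl⟩
  rw [← hw] at hr4 hN4'
  have h64 : 0 < 64 / η := by positivity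
  have hw4 : 4 ≤ w := by linarith
  have hqh : (q : ℝ) ≤ (N : ℝ) ^ (1 / 2 : ℝ) := hqN.trans (Real.rpow_le_rpow_of_exponent_le hN1r (by linarith))
  have hNhalf : (N : ℝ) ^ (1 / 2 : ℝ) * (N : ℝ) ^ (1 / 2 : ℝ) = N := by
    rw [← Real.rpow_add hN0]; norm_num
  have hNq : w * w ≤ (N : ℝ) / q := by
    rw [le_div_iff₀ hq0, ← hr4]
    calc (N : ℝ) ^ (1 / 2 : ℝ) * q ≤ (N : ℝ) ^ (1 / 2 : ℝ) * (N : ℝ) ^ (1 / 2 : ℝ) :=
          mul_le_mul_of_nonneg_left hqh (by positivity)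
      _ = N := hNhalf
  have hqN' : q ≤ N := by
    have : (q : ℝ) ≤ N := by
      refine hqh.trans ?_
      calc (N : ℝ) ^ (1 / 2 : ℝ) ≤ (N : ℝ) ^ (1 : ℝ) := Real.rpow_le_rpow_of_exponent_le hN1r (by norm_num)
        _ = N := Real.rpow_one _
    exact_mod_cast this
  obtain ⟨hlen1, hlen2⟩ := len_bd (b := b) hq hqN'
  have hz3 : z ^ 3 ≤ len q b N := by
    have h1 : (z : ℝ) ^ 3 ≤ (N' : ℝ) ^ (1 / 4 : ℝ) := by
      calc (z : ℝ) ^ 3 ≤ (L ^ (B + 2)) ^ 3 := pow_le_pow_left₀ (Nat.cast_nonneg _) hz2 3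
        _ = L ^ (3 * (B + 2)) := by rw [← pow_mul, mul_comm]
        _ ≤ _ := hLp
    have h2 : (N' : ℝ) ^ (1 / 4 : ℝ) ≤ 2 * w := by
      calc (N' : ℝ) ^ (1 / 4 : ℝ) ≤ (2 * N) ^ (1 / 4 : ℝ) := Real.rpow_le_rpow hN'0.le hN'2 (by norm_num)
        _ = (2 : ℝ) ^ (1 / 4 : ℝ) * w := by rw [Real.mul_rpow (by norm_num) hN0.le, hw]
        _ ≤ 2 * w := by
            refine mul_le_mul_of_nonneg_right ?_ (by linarith)
            calc (2 : ℝ) ^ (1 / 4 : ℝ) ≤ (2 : ℝ) ^ (1 : ℝ) := Real.rpow_le_rpow_of_exponent_le (by norm_num) (by norm_num)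
              _ = 2 := Real.rpow_one _
    have h3 : (z : ℝ) ^ 3 ≤ len q b N := by nlinarith
    exact_mod_cast h3
  -- the three exceptional sets
  have hc1 : (#((Icc 1 ⌊η / 16 * N'⌋₊).filter (fun n => n ≡ b [MOD q])) : ℝ) ≤ η / 8 * (N / q) + 2 := by
    refine (class_count hq).trans ?_
    have h1 : (⌊η / 16 * N'⌋₊ : ℝ) ≤ η / 16 * N' := Nat.floor_le (by positivity)
    have h2 : (⌊η / 16 * N'⌋₊ : ℝ) / q ≤ η / 8 * (N / q) := by
      calc (⌊η / 16 * N'⌋₊ : ℝ) / q ≤ (η / 8 * N) / q := by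
            apply div_le_div_of_nonneg_right _ hq0.le
            nlinarith
        _ = η / 8 * (N / q) := by ring
    linarith
  have hc2 := hN1 N' (by omega) z hz1 hz2 q hq
    (hqN.trans (by
      rcases le_or_gt μ (1 / 2) with h | h
      · exact Real.rpow_le_rpow hN0.le hNN' (by linarith)
      · exfalso
        have h1 : (N : ℝ) ^ (1 / 2 - μ) < 1 := Real.rpow_lt_one_of_one_lt_of_neg (by
          have : 2 ≤ N := by omega
          exact_mod_cast (by omega : 1 < N)) (by linarith)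
        have h2 : (1 : ℝ) ≤ q := by exact_mod_cast hq
        linarith))
    (hτ.trans (pow_le_pow_left₀ hLN0 hLN A)) (b + s) (hb.trans (pow_le_pow_left₀ hLN0 hLN A))
  rw [pow_one, ← hL] at hc2
  have hc2' : (#((Icc 1 N).filter (fun n => n ≡ b [MOD q] ∧ ¬ GoodS 2 N' z (n + s))) : ℝ) ≤ η / 32 * (N / q) := by
    have h1 : #((Icc 1 N).filter (fun n => n ≡ b [MOD q] ∧ ¬ GoodS 2 N' z (n + s))) ≤
        #((Icc 1 N').filter (fun n => n ≡ b + s [MOD q] ∧ ¬ GoodS 2 N' z n)) := by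
      refine card_le_card_of_injOn (fun n => n + s) ?_ (fun a _ b _ h => by simpa using h)
      intro n hn
      simp only [coe_filter, mem_Icc, Set.mem_ofPred_eq] at hn ⊢
      exact ⟨⟨by omega, by omega⟩, hn.2.1.add_right s, hn.2.2⟩
    have h2 : (#((Icc 1 N).filter (fun n => n ≡ b [MOD q] ∧ ¬ GoodS 2 N' z (n + s))) : ℝ) ≤ N' / (q * L) := by
      refine le_trans ?_ hc2
      exact_mod_cast h1
    refine h2.trans ?_
    rw [div_le_iff₀ (by positivity)]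
    have h3 : η / 32 * ((N : ℝ) / q) * (q * L) = N * (η / 32 * L) := by field_simp
    rw [h3]
    have h4 : 2 ≤ η / 32 * L := by
      have := mul_le_mul_of_nonneg_left hLη (show 0 ≤ η / 32 by positivity)
      have e : η / 32 * (64 / η) = 2 := by field_simp; norm_num
      linarith
    nlinarith
  have hc3 : (#((Icc 1 N).filter (fun n => n ≡ b [MOD q] ∧
      η / 16 < |∏ p ∈ PR q y z, loc ((n + s : ℕ) : ℤ) p - 1|)) : ℝ) ≤ η / 16 * (N / q) + η / 16 := by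
    rw [prog_card hq hqN']
    have h1 := hy0 y hy z hzy (len q b N) hz3 q ((fst q b : ℤ) + s) hq
    have h2 : #((range (len q b N)).filter (fun i => η / 16 <
        |∏ p ∈ PR q y z, loc ((fst q b + q * i + s : ℕ) : ℤ) p - 1|)) =
        #((range (len q b N)).filter (fun i : ℕ => η / 16 <
        |∏ p ∈ PR q y z, loc ((fst q b : ℤ) + s + q * i) p - 1|)) := by
      congr 1
      refine filter_congr fun i _ => ?_
      have e : ((fst q b + q * i + s : ℕ) : ℤ) = (fst q b : ℤ) + s + q * i := by push_cast; ring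
      rw [e]
    rw [h2]
    refine h1.trans ?_
    nlinarith
  -- the cover
  have hcover : (Icc 1 N).filter (fun n => n ≡ b [MOD q] ∧ ¬ Close κ η y (n + s)) ⊆
      ((Icc 1 ⌊η / 16 * N'⌋₊).filter (fun n => n ≡ b [MOD q])) ∪
      (((Icc 1 N).filter (fun n => n ≡ b [MOD q] ∧ ¬ GoodS 2 N' z (n + s))) ∪
      ((Icc 1 N).filter (fun n => n ≡ b [MOD q] ∧
        η / 16 < |∏ p ∈ PR q y z, loc ((n + s : ℕ) : ℤ) p - 1|))) := by
    intro n hn
    rw [mem_filter, mem_Icc] at hn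
    obtain ⟨⟨h1, h2⟩, h3, h4⟩ := hn
    rw [mem_union, mem_union]
    by_contra hcon
    rw [not_or, not_or] at hcon
    obtain ⟨g1, g2, g3⟩ := hcon
    have g1' : η / 16 * N' ≤ ((n + s : ℕ) : ℝ) := by
      by_contra hlt
      rw [not_le] at hlt
      apply g1
      rw [mem_filter, mem_Icc]
      refine ⟨⟨h1, Nat.le_floor ?_⟩, h3⟩
      have : (n : ℝ) ≤ ((n + s : ℕ) : ℝ) := by exact_mod_cast Nat.le_add_right n s
      linarith
    have g2' : GoodS 2 N' z (n + s) := by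
      by_contra hno
      exact g2 (mem_filter.2 ⟨mem_Icc.2 ⟨h1, h2⟩, h3, hno⟩)
    have g3' : |∏ p ∈ PR q y z, loc ((n + s : ℕ) : ℤ) p - 1| ≤ η / 16 := by
      by_contra hno
      exact g3 (mem_filter.2 ⟨mem_Icc.2 ⟨h1, h2⟩, h3, not_le.1 hno⟩)
    obtain ⟨k1, k2, k3, k4⟩ := hkey (n + s) g1' (by omega)
    apply h4
    refine ⟨k4, fun u v hw => ?_⟩
    have hTc : c ≤ T ((n + s : ℕ) : ℤ) y := by
      unfold T
      rw [hcd, ← prod_const]
      refine prod_le_prod (fun _ _ => by norm_num) fun p hp => ?_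
      unfold PP at hp
      have h3p := (mem_Icc.1 (mem_filter.1 hp).1).1
      have h5 := loc_abs ((n + s : ℕ) : ℤ) h3p
      unfold loc at h5 ⊢
      have h6 : (jacobiSym ((n + s : ℕ) : ℤ) p : ℝ) ≤ 1 := by
        rcases jacobiSym.trichotomy ((n + s : ℕ) : ℤ) p with h | h | h <;> rw [h] <;> norm_num
      have h7 : (3 : ℝ) ≤ p := by exact_mod_cast h3p
      have h8 : (jacobiSym ((n + s : ℕ) : ℤ) p : ℝ) / ((p : ℝ) - 1) ≤ 1 / 2 := by
        rw [div_le_div_iff₀ (by linarith) (by norm_num)]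
        linarith
      linarith
    have hTp : 0 < T ((n + s : ℕ) : ℤ) y := lt_of_lt_of_le hc0 hTc
    have hST : |T ((n + s : ℕ) : ℤ) z - T ((n + s : ℕ) : ℤ) y| ≤ η / 4 * T ((n + s : ℕ) : ℤ) y := by
      rw [Pool.Agent.N511.LL.D0x.T_split hy2 hzy, prod_split hq]
      have h5 := prod_q hq ((n + s : ℕ) : ℤ) (z := z) hy2 (δ := η / 64) (by linarith) hδ
      set a := ∏ p ∈ PR q y z, loc ((n + s : ℕ) : ℤ) p with ha
      set e := ∏ p ∈ (PR 1 y z).filter (fun p => p ∣ q), loc ((n + s : ℕ) : ℤ) p with he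
      have h6 : T ((n + s : ℕ) : ℤ) y * (a * e) - T ((n + s : ℕ) : ℤ) y = (a * e - 1) * T ((n + s : ℕ) : ℤ) y := by
        ring
      rw [h6, abs_mul, abs_of_pos hTp]
      refine mul_le_mul_of_nonneg_right ?_ hTp.le
      have h7 : a * e - 1 = (a - 1) * (e - 1) + (a - 1) + (e - 1) := by ring
      rw [h7]
      refine (abs_add_le _ _).trans ?_
      refine (add_le_add (abs_add_le _ _) le_rfl).trans ?_
      rw [abs_mul]
      have h8 : |a - 1| * |e - 1| ≤ η / 16 * (4 * (η / 64)) := mul_le_mul g3' h5 (abs_nonneg _) (by positivity)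
      nlinarith
    exact key hη hη1 hκ hc0 hTc hST (hy2.trans hzy) g2' (by omega) hL2 k1 k2 k3 u v hw.1 hw.2.1 hw.2.2
  have hcard := (card_le_card hcover).trans ((card_union_le _ _).trans (add_le_add le_rfl (card_union_le _ _)))
  have hcard' : (#((Icc 1 N).filter (fun n => n ≡ b [MOD q] ∧ ¬ Close κ η y (n + s))) : ℝ) ≤
      #((Icc 1 ⌊η / 16 * N'⌋₊).filter (fun n => n ≡ b [MOD q])) +
      (#((Icc 1 N).filter (fun n => n ≡ b [MOD q] ∧ ¬ GoodS 2 N' z (n + s))) +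
      #((Icc 1 N).filter (fun n => n ≡ b [MOD q] ∧
        η / 16 < |∏ p ∈ PR q y z, loc ((n + s : ℕ) : ℤ) p - 1|))) := by exact_mod_cast hcard
  refine hcard'.trans ?_
  have hfin : 3 ≤ η / 4 * (N / q) := by
    have h1 : 64 / η ≤ w := by linarith
    have h2 : w * 1 ≤ w * w := mul_le_mul_of_nonneg_left (by linarith) (by linarith)
    have h3 : 64 / η ≤ (N : ℝ) / q := by linarith
    have h4 := mul_le_mul_of_nonneg_left h3 (show 0 ≤ η / 4 by positivity)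
    have e : η / 4 * (64 / η) = 16 := by field_simp; norm_num
    linarith
  have hNq0 : 0 ≤ (N : ℝ) / q := by positivity
  linarith

end Pool.Agent.K9h54.LW
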