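import Mathlib
import Pool.Agent.K9h54.LW.C2
import Pool.Agent.N511.LL.A0
import Pool.Agent.N511.LL.B
import Pool.Agent.N511.LL.C0
import Pool.Agent.N511.LL.D0
import Pool.Agent.N511.LL.E0
import Pool.Agent.N511.LL.F0
import Pool.Agent.N511.LL.F1
import Pool.Agent.N511.LL.F2

set_option autoImplicit false

/-! The joint law. -/

namespace Pool.Agent.K9h54.LW

open Finset Filter Topology
open Pool.Agent.N511.LL (T PP Q loc PR InBox Gb IsLaw)

/-- on all long intervals the number of solutions is between `a` and `b` times the length over `log n` -/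
def Typ (κ a b : ℝ) (n : ℕ) : Prop := ∀ u v : ℕ, Win κ n u v →
  a * ((v : ℝ) - u) < cnt n u v * Real.log n ∧ (cnt n u v : ℝ) * Real.log n ≤ b * ((v : ℝ) - u)

lemma win_pos {κ : ℝ} {n u v : ℕ} (h : Win κ n u v) : (0 : ℝ) < (v : ℝ) - u := by
  have : (u : ℝ) < v := by exact_mod_cast h.1
  linarith

/-- typical, seen from the truncated product -/
lemma typ_upper {κ η a b : ℝ} {y n : ℕ} (hc : Close κ η y n) (h : Typ κ a b n) :
    a < (1 + η) * T n y ∧ (1 - η) * T n y ≤ b := by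
  obtain ⟨u, v, hw⟩ := hc.1
  have h1 := hc.2 u v hw
  obtain ⟨h2, h3⟩ := h u v hw
  obtain ⟨h4, h5⟩ := abs_le.1 h1
  have hl := win_pos hw
  constructor
  · by_contra hcon
    rw [not_lt] at hcon
    have := mul_le_mul_of_nonneg_right hcon hl.le
    nlinarith
  · by_contra hcon
    rw [not_le] at hcon
    have := mul_lt_mul_of_pos_right hcon hl
    nlinarith

lemma typ_lower {κ η a b : ℝ} {y n : ℕ} (hc : Close κ η y n) (h1 : a < (1 - η) * T n y)
    (h2 : (1 + η) * T n y ≤ b) : Typ κ a b n := by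
  intro u v hw
  obtain ⟨h4, h5⟩ := abs_le.1 (hc.2 u v hw)
  have hl := win_pos hw
  constructor
  · have := mul_lt_mul_of_pos_right h1 hl
    nlinarith
  · have := mul_le_mul_of_nonneg_right h2 hl.le
    nlinarith

lemma T_pos' (d : ℤ) (y : ℕ) : 0 < T d y := Pool.Agent.N511.LL.D0x.T_pos d y

lemma cop_Q {q y : ℕ} (hq : 1 ≤ q) (h : ∀ p ∈ q.primeFactors, 2 < p → y < p) : Nat.Coprime q (Q y) := by
  unfold Q
  refine Nat.Coprime.prod_right fun p hp => ?_
  unfold PP at hp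
  rw [mem_filter, mem_Icc] at hp
  rw [Nat.coprime_comm, hp.2.coprime_iff_not_dvd]
  intro hd
  have := h p (Nat.mem_primeFactors.2 ⟨hp.2, hd, by omega⟩) (by omega)
  omega

lemma Q_pos' (y : ℕ) : 0 < Q y := by
  unfold Q
  refine Finset.prod_pos fun p hp => ?_
  unfold PP at hp
  exact (mem_filter.1 hp).2.pos

lemma T_bounds (y : ℕ) : ∃ K : ℝ, 0 < K ∧ ∀ d : ℤ, 1 / K < T d y ∧ T d y ≤ K := by
  refine ⟨2 * 2 ^ #(PP y), by positivity, fun d => ?_⟩
  have hl : ∀ p ∈ PP y, 1 / 2 ≤ loc d p ∧ loc d p ≤ 2 := by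
    intro p hp
    unfold PP at hp
    have h3 := (mem_Icc.1 (mem_filter.1 hp).1).1
    have h4 : (3 : ℝ) ≤ p := by exact_mod_cast h3
    have h5 : |(jacobiSym d p : ℝ)| ≤ 1 := by
      rcases jacobiSym.trichotomy d p with h | h | h <;> rw [h] <;> norm_num
    have h6 : |(jacobiSym d p : ℝ) / ((p : ℝ) - 1)| ≤ 1 / 2 := by
      rw [abs_div, abs_of_pos (show (0 : ℝ) < p - 1 by linarith), div_le_div_iff₀ (by linarith) (by norm_num)]
      linarith
    obtain ⟨h7, h8⟩ := abs_le.1 h6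
    unfold loc
    constructor <;> linarith
  constructor
  · have h1 : (1 / 2 : ℝ) ^ #(PP y) ≤ T d y := by
      unfold T
      rw [← prod_const]
      exact prod_le_prod (fun _ _ => by norm_num) fun p hp => (hl p hp).1
    refine lt_of_lt_of_le ?_ h1
    rw [one_div_pow, one_div_lt_one_div (by positivity) (by positivity)]
    have : (0 : ℝ) < 2 ^ #(PP y) := by positivity
    linarith
  · have h1 : T d y ≤ (2 : ℝ) ^ #(PP y) := by
      unfold T
      rw [← prod_const]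
      exact prod_le_prod (fun p hp => by linarith [(hl p hp).1]) fun p hp => (hl p hp).2
    have : (0 : ℝ) < 2 ^ #(PP y) := by positivity
    linarith

open Classical in
theorem law (k : ℕ) (s : Fin k → ℕ) (hs : Function.Injective s) :
    ∃ ρ : (Fin k → ℝ) → (Fin k → ℝ) → ℝ,
      (∀ α β : Fin k → ℝ, (∀ j, α j < β j) → (∀ j, 0 < β j) → 0 < ρ α β) ∧
      (∀ ε : ℝ, 0 < ε → ∃ δ : ℝ, 0 < δ ∧ ∀ (α β : Fin k → ℝ) (j : Fin k), 0 < α j → β j ≤ (1 + δ) * α j → ρ α β ≤ ε) ∧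
      (∀ ε : ℝ, 0 < ε → ∃ K : ℝ, 0 < K ∧ ∀ α β : Fin k → ℝ, (∀ j, α j ≤ 1 / K) → (∀ j, K ≤ β j) → 1 - ε ≤ ρ α β) ∧
      (∀ ε : ℝ, 0 < ε → ∃ y0 : ℕ, ∀ y : ℕ, y0 ≤ y → ∀ α β : Fin k → ℝ,
        |Gb y (fun j => (s j : ℤ)) α β - ρ α β| ≤ ε) ∧
      ∀ κ ε : ℝ, 0 < κ → κ < 1 → 0 < ε → ∃ δ : ℝ, 0 < δ ∧ ∀ (μ : ℝ) (A : ℕ), 0 < μ → ∃ N₀ : ℕ, ∀ N : ℕ, N₀ ≤ N →
      ∀ q : ℕ, 1 ≤ q → (q : ℝ) ≤ (N : ℝ) ^ (1 / 2 - μ) → (q.divisors.card : ℝ) ≤ Real.log N ^ A →
      ∑ p ∈ q.primeFactors.filter (fun p => 2 < p), (1 : ℝ) / p ≤ δ →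
      ∀ b : ℕ, (∀ j, (Nat.gcd (b + s j) q : ℝ) ≤ Real.log N ^ A) → ∀ α β : Fin k → ℝ,
        |(#((Icc 1 N).filter (fun n => n ≡ b [MOD q] ∧ ∀ j, Typ κ (α j) (β j) (n + s j))) : ℝ) - ρ α β * (N / q)| ≤
          ε * (N / q) := by
  have hA : Pool.Agent.N511.LL.A0 := Pool.Agent.N511.LL.a0
  have hB : Pool.Agent.N511.LL.B2 := Pool.Agent.N511.LL.b2
  have hC : Pool.Agent.N511.LL.C0 := Pool.Agent.N511.LL.c0
  have hD : Pool.Agent.N511.LL.D0 := Pool.Agent.N511.LL.d0 hA hB hC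
  have hE : Pool.Agent.N511.LL.E0 := Pool.Agent.N511.LL.e0 hA hC
  have hF : Pool.Agent.N511.LL.F0 := Pool.Agent.N511.LL.f0 Pool.Agent.N511.LL.f1 Pool.Agent.N511.LL.f2 hB hC
  set s' : Fin k → ℤ := fun j => (s j : ℤ) with hs'
  have hs'i : Function.Injective s' := fun i j hij => hs (Int.natCast_inj.1 hij)
  obtain ⟨ρ, hρ⟩ := @hD (Fin k) _ s'
  have hlim : ∀ α β, Tendsto (fun y : ℕ => Gb y s' α β) atTop (𝓝 (ρ α β)) := by
    intro α β
    rw [Metric.tendsto_atTop]
    intro e he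
    obtain ⟨y2, hy2⟩ := hρ (e / 2) (by linarith)
    refine ⟨y2, fun y hy => ?_⟩
    rw [Real.dist_eq]
    have := hy2 y hy α β
    linarith
  have hGb0 : ∀ y α β, 0 ≤ Gb y s' α β := fun y α β => by unfold Gb; positivity
  have hGb1 : ∀ y α β, Gb y s' α β ≤ 1 := by
    intro y α β
    unfold Gb
    have hQ : (0 : ℝ) < Q y := by exact_mod_cast Q_pos' y
    rw [div_le_one hQ]
    have := card_filter_le (range (Q y)) (fun d : ℕ => InBox y s' α β d)
    rw [card_range] at this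
    exact_mod_cast this
  have hρ0 : ∀ α β, 0 ≤ ρ α β := fun α β => ge_of_tendsto' (hlim α β) fun y => hGb0 y α β
  have hρ1 : ∀ α β, ρ α β ≤ 1 := fun α β => le_of_tendsto' (hlim α β) fun y => hGb1 y α β
  refine ⟨ρ, ?_, ?_, ?_, hρ, ?_⟩
  · intro α β hαβ hβ
    obtain ⟨c0, hc0, y1, hy1⟩ := @hF (Fin k) _ s' hs'i α β hαβ hβ
    have : c0 ≤ ρ α β := ge_of_tendsto (hlim α β) (eventually_atTop.2 ⟨y1, fun y hy => hy1 y hy⟩)
    linarith
  · intro ε hε
    obtain ⟨y0, δ, hδ, -, hA'⟩ := hA ε hε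
    refine ⟨δ, hδ, fun α β j hα hβ => le_of_tendsto (hlim α β) (eventually_atTop.2 ⟨y0, fun y hy => ?_⟩)⟩
    have h1 := hA' y hy (s' j) (α j) hα
    have hQ : (0 : ℝ) < Q y := by exact_mod_cast Q_pos' y
    unfold Gb
    rw [div_le_iff₀ hQ]
    refine le_trans ?_ h1
    rw [Nat.cast_le]
    refine card_le_card fun d hd => ?_
    rw [mem_filter] at hd ⊢
    refine ⟨hd.1, (hd.2 j).1, (hd.2 j).2.trans ?_⟩
    linarith
  · intro ε hε
    obtain ⟨y0, hy0⟩ := hρ ε hε
    obtain ⟨K, hK, hT⟩ := T_bounds y0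
    refine ⟨K, hK, fun α β hα hβ => ?_⟩
    have h1 := hy0 y0 le_rfl α β
    have h2 : Gb y0 s' α β = 1 := by
      unfold Gb
      have hQ : (0 : ℝ) < Q y0 := by exact_mod_cast Q_pos' y0
      rw [div_eq_one_iff_eq hQ.ne']
      have : (range (Q y0)).filter (fun d : ℕ => InBox y0 s' α β d) = range (Q y0) := by
        rw [filter_eq_self]
        intro d _ j
        exact ⟨lt_of_le_of_lt (hα j) (hT _).1, (hT _).2.trans (hβ j)⟩
      rw [this, card_range]
    rw [h2] at h1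
    have := (abs_le.1 h1).2
    linarith
  · intro κ ε hκ hκ1 hε
    obtain ⟨η0, hη0, y2, hy2⟩ := @hE (Fin k) _ s' ρ hρ (ε / 4) (by positivity)
    obtain ⟨η, hη, hη1, hη2, hη3⟩ : ∃ η : ℝ, 0 < η ∧ η ≤ 1 ∧ η ≤ η0 ∧ η * (k + 1) ≤ ε / 4 :=
      ⟨min 1 (min η0 (ε / 4 / (k + 1))), by positivity, min_le_left _ _,
        (min_le_right _ _).trans (min_le_left _ _), by
          have h1 : min 1 (min η0 (ε / 4 / (k + 1))) ≤ ε / 4 / (k + 1) := (min_le_right _ _).trans (min_le_right _ _)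
          have h2 : (0 : ℝ) < k + 1 := by positivity
          rwa [le_div_iff₀ h2] at h1⟩
    obtain ⟨y3, δ1, hδ1, hcore⟩ := core κ η hκ hκ1 hη hη1
    obtain ⟨y, hy⟩ : ∃ y, y = max y2 (max y3 3) := ⟨_, rfl⟩
    have hyy2 : y2 ≤ y := by omega
    have hyy3 : y3 ≤ y := by omega
    have hy3 : 3 ≤ y := by omega
    obtain ⟨M0, hM0⟩ := hy2 y hyy2
    have hy0 : (0 : ℝ) < y := by exact_mod_cast (by omega : 0 < y)
    refine ⟨min δ1 (1 / (2 * y)), by positivity, fun μ A hμ => ?_⟩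
    choose N1 hN1 using fun j => hcore y hyy3 μ A (s j) hμ
    have hlarge : ∀ᶠ N : ℕ in atTop, ((M0 : ℝ) + 1 + 4 * (1 + ε) / ε + 1) ≤ (N : ℝ) ^ (1 / 2 : ℝ) :=
      ((tendsto_rpow_atTop (by norm_num)).comp tendsto_natCast_atTop_atTop).eventually_ge_atTop _
    obtain ⟨N2, hN2⟩ := eventually_atTop.1 hlarge
    refine ⟨univ.sup N1 + N2 + 2, fun N hN q hq hqN hτ hδ b hb α β => ?_⟩
    have hN0 : (0 : ℝ) < N := by exact_mod_cast (by omega : 0 < N)
    have hN1r : (1 : ℝ) ≤ N := by exact_mod_cast (by omega : 1 ≤ N)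
    have hq0 : (0 : ℝ) < q := by exact_mod_cast hq
    have hN2' := hN2 N (by omega)
    have hqh : (q : ℝ) ≤ (N : ℝ) ^ (1 / 2 : ℝ) := hqN.trans (Real.rpow_le_rpow_of_exponent_le hN1r (by linarith))
    have hNhalf : (N : ℝ) ^ (1 / 2 : ℝ) * (N : ℝ) ^ (1 / 2 : ℝ) = N := by
      rw [← Real.rpow_add hN0]; norm_num
    have hNq : (N : ℝ) ^ (1 / 2 : ℝ) ≤ (N : ℝ) / q := by
      rw [le_div_iff₀ hq0]
      calc (N : ℝ) ^ (1 / 2 : ℝ) * q ≤ (N : ℝ) ^ (1 / 2 : ℝ) * (N : ℝ) ^ (1 / 2 : ℝ) :=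
            mul_le_mul_of_nonneg_left hqh (by positivity)
        _ = N := hNhalf
    have hqN' : q ≤ N := by
      have : (q : ℝ) ≤ N := by
        refine hqh.trans ?_
        calc (N : ℝ) ^ (1 / 2 : ℝ) ≤ (N : ℝ) ^ (1 : ℝ) := Real.rpow_le_rpow_of_exponent_le hN1r (by norm_num)
          _ = N := Real.rpow_one _
      exact_mod_cast this
    obtain ⟨hlen1, hlen2⟩ := len_bd (b := b) hq hqN'
    set M := len q b N with hM
    set x : ℝ := (N : ℝ) / q with hx
    have hx0 : 0 < x := by positivity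
    have hρε : 0 ≤ 4 * (1 + ε) / ε := by positivity
    have hρpos := hρ0 α β
    have hρle := hρ1 α β
    have hM0M : M0 ≤ M := by
      have : (M0 : ℝ) ≤ M := by linarith
      exact_mod_cast this
    have hcop : Nat.Coprime q (Q y) := by
      refine cop_Q hq fun p hp h2 => ?_
      by_contra hcon
      have h3 : (1 : ℝ) / p ≤ ∑ p ∈ q.primeFactors.filter (fun p => 2 < p), (1 : ℝ) / p :=
        single_le_sum (f := fun p : ℕ => (1 : ℝ) / p) (fun i _ => by positivity) (mem_filter.2 ⟨hp, h2⟩)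
      have h4 : (1 : ℝ) / p ≤ 1 / (2 * y) := h3.trans (hδ.trans (min_le_right _ _))
      have hp0 : (0 : ℝ) < p := by exact_mod_cast (by omega : 0 < p)
      rw [div_le_div_iff₀ hp0 (by positivity)] at h4
      have h5 : (p : ℝ) ≤ y := by exact_mod_cast not_lt.1 hcon
      linarith
    -- bad members
    have hbadj : ∀ j, (#((range M).filter (fun i => ¬ Close κ η y (fst q b + q * i + s j))) : ℝ) ≤ η * x := by
      intro j
      have h1 := hN1 j N (by have := le_sup (f := N1) (mem_univ j); omega) q hq hqN hτ (hδ.trans (min_le_left _ _)) b (hb j)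
      rw [prog_card hq hqN'] at h1
      exact h1
    have hbad : (#((range M).filter (fun i => ∃ j, ¬ Close κ η y (fst q b + q * i + s j))) : ℝ) ≤ ε / 4 * x := by
      have h1 : (range M).filter (fun i => ∃ j, ¬ Close κ η y (fst q b + q * i + s j)) ⊆
          univ.biUnion (fun j => (range M).filter (fun i => ¬ Close κ η y (fst q b + q * i + s j))) := by
        intro i hi
        rw [mem_filter] at hi
        obtain ⟨h2, j, h3⟩ := hi
        rw [mem_biUnion]
        exact ⟨j, mem_univ j, mem_filter.2 ⟨h2, h3⟩⟩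
      calc (#((range M).filter (fun i => ∃ j, ¬ Close κ η y (fst q b + q * i + s j))) : ℝ) ≤
          ∑ j, (#((range M).filter (fun i => ¬ Close κ η y (fst q b + q * i + s j))) : ℝ) := by
            exact_mod_cast (card_le_card h1).trans card_biUnion_le
        _ ≤ ∑ _j : Fin k, η * x := sum_le_sum fun j _ => hbadj j
        _ = k * (η * x) := by rw [sum_const, card_univ, Fintype.card_fin, nsmul_eq_mul]
        _ ≤ ε / 4 * x := by
            have : η * (k + 1) * x ≤ ε / 4 * x := mul_le_mul_of_nonneg_right hη3 hx0.le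
            nlinarith
    -- the two comparisons
    have hE1 : ∀ θ1 θ2 : ℝ, |θ1| ≤ η → |θ2| ≤ η →
        |(#((range M).filter (fun i : ℕ => ∀ j, α j < (1 + θ1) * T (((fst q b + q * i + s j : ℕ) : ℤ)) y ∧
          (1 + θ2) * T (((fst q b + q * i + s j : ℕ) : ℤ)) y ≤ β j)) : ℝ) - M * ρ α β| ≤ ε / 4 * M := by
      intro θ1 θ2 h1 h2
      have h3 := hM0 M hM0M q (fst q b : ℤ) (fun j i => (1 + θ1) * T (((fst q b + q * i + s j : ℕ) : ℤ)) y)
        (fun j i => (1 + θ2) * T (((fst q b + q * i + s j : ℕ) : ℤ)) y) hcop (fun j => ?_) α β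
      · convert h3
      · have h4 : (range M).filter (fun i : ℕ =>
            η0 * T ((fst q b : ℤ) + (q : ℤ) * (i : ℤ) + s' j) y <
              |(1 + θ1) * T (((fst q b + q * i + s j : ℕ) : ℤ)) y - T ((fst q b : ℤ) + (q : ℤ) * (i : ℤ) + s' j) y| ∨
            η0 * T ((fst q b : ℤ) + (q : ℤ) * (i : ℤ) + s' j) y <
              |(1 + θ2) * T (((fst q b + q * i + s j : ℕ) : ℤ)) y - T ((fst q b : ℤ) + (q : ℤ) * (i : ℤ) + s' j) y|) = ∅ := by
          rw [filter_eq_empty_iff]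
          intro i _
          have e : (((fst q b + q * i + s j : ℕ) : ℤ)) = (fst q b : ℤ) + (q : ℤ) * (i : ℤ) + s' j := by
            push_cast
            rfl
          rw [e]
          have hT := T_pos' ((fst q b : ℤ) + (q : ℤ) * (i : ℤ) + s' j) y
          set t := T ((fst q b : ℤ) + (q : ℤ) * (i : ℤ) + s' j) y with ht
          have e1 : (1 + θ1) * t - t = θ1 * t := by ring
          have e2 : (1 + θ2) * t - t = θ2 * t := by ring
          rw [e1, e2, abs_mul, abs_mul, abs_of_pos hT, not_or, not_lt, not_lt]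
          exact ⟨mul_le_mul_of_nonneg_right (h1.trans hη2) hT.le, mul_le_mul_of_nonneg_right (h2.trans hη2) hT.le⟩
        rw [h4, card_empty]
        push_cast
        positivity
    have hη' : |η| ≤ η := by rw [abs_of_pos hη]
    have hηn : |-η| ≤ η := by rw [abs_neg, abs_of_pos hη]
    have hup := hE1 η (-η) hη' hηn
    have hlo := hE1 (-η) η hηn hη'
    rw [prog_card hq hqN']
    set E := (range M).filter (fun i => ∀ j, Typ κ (α j) (β j) (fst q b + q * i + s j)) with hEd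
    set Bd := (range M).filter (fun i => ∃ j, ¬ Close κ η y (fst q b + q * i + s j)) with hBd
    set Up := (range M).filter (fun i : ℕ => ∀ j, α j < (1 + η) * T (((fst q b + q * i + s j : ℕ) : ℤ)) y ∧
          (1 + -η) * T (((fst q b + q * i + s j : ℕ) : ℤ)) y ≤ β j) with hUp
    set Lo := (range M).filter (fun i : ℕ => ∀ j, α j < (1 + -η) * T (((fst q b + q * i + s j : ℕ) : ℤ)) y ∧
          (1 + η) * T (((fst q b + q * i + s j : ℕ) : ℤ)) y ≤ β j) with hLo
    have hs1 : E ⊆ Up ∪ Bd := by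
      intro i hi
      rw [hEd, mem_filter] at hi
      rw [mem_union]
      by_cases h : ∃ j, ¬ Close κ η y (fst q b + q * i + s j)
      · exact Or.inr (mem_filter.2 ⟨hi.1, h⟩)
      · left
        rw [not_exists] at h
        refine mem_filter.2 ⟨hi.1, fun j => ?_⟩
        have h1 := typ_upper (not_not.1 (h j)) (hi.2 j)
        rw [← sub_eq_add_neg]
        exact h1
    have hs2 : Lo ⊆ E ∪ Bd := by
      intro i hi
      rw [hLo, mem_filter] at hi
      rw [mem_union]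
      by_cases h : ∃ j, ¬ Close κ η y (fst q b + q * i + s j)
      · exact Or.inr (mem_filter.2 ⟨hi.1, h⟩)
      · left
        rw [not_exists] at h
        refine mem_filter.2 ⟨hi.1, fun j => ?_⟩
        have h1 := hi.2 j
        rw [← sub_eq_add_neg] at h1
        exact typ_lower (not_not.1 (h j)) h1.1 h1.2
    have c1 : (#E : ℝ) ≤ #Up + #Bd := by exact_mod_cast (card_le_card hs1).trans (card_union_le _ _)
    have c2 : (#Lo : ℝ) ≤ #E + #Bd := by exact_mod_cast (card_le_card hs2).trans (card_union_le _ _)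
    obtain ⟨u1, u2⟩ := abs_le.1 hup
    obtain ⟨l1, l2⟩ := abs_le.1 hlo
    have hMx : |(M : ℝ) - x| ≤ 1 := by rw [abs_le]; constructor <;> linarith
    obtain ⟨m1, m2⟩ := abs_le.1 hMx
    have hx1 : (ρ α β + ε) ≤ ε / 4 * x := by
      have h1 : 4 * (1 + ε) / ε ≤ x := by
        have : (0 : ℝ) ≤ M0 := Nat.cast_nonneg _
        linarith
      rw [div_le_iff₀ hε] at h1
      linarith
    have hMρ1 : (M : ℝ) * ρ α β ≤ x * ρ α β + ρ α β := by nlinarith
    have hMρ2 : x * ρ α β - ρ α β ≤ (M : ℝ) * ρ α β := by nlinarith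
    have hMε : ε / 4 * (M : ℝ) ≤ ε / 4 * x + ε / 4 := by nlinarith
    rw [abs_le]
    constructor
    · nlinarith
    · nlinarith

end Pool.Agent.K9h54.LW
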